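import Pool.Agent.R344.TH.D

/-! The transfer principle uniformly in `d`, part 2: bounded multiples of `z`. -/

set_option autoImplicit false

namespace Pool.Agent.H998_TU

open Finset Filter Topology
open Pool.Agent.H320R2.PD Pool.Agent.H499R2.ND
open Pool.Agent.H499R2.CO (Tz)
open Pool.Agent.R344.SP Pool.Agent.R344.TH

open scoped Classical in
/-- few integers have many odd terms, uniformly in `d` -/
theorem od_largeU {c₁ : ℝ} (hc : 1 / 2 < c₁) : ∃ ρ : ℝ, 0 < ρ ∧ ρ < 1 ∧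
    ∀ (d : ℤ), d % 2 = 1 → ∀ (t : ℕ) (A : ℝ), 0 ≤ A →
      (((Wn A).filter (fun n => c₁ * t ≤ (od d t n : ℝ))).card : ℝ) ≤ (A + 2 ^ t) * ρ ^ t := by
  obtain ⟨x, hx1, hxc⟩ : ∃ x : ℝ, 1 < x ∧ x < 2 * c₁ := ⟨(1 + 2 * c₁) / 2, by linarith, by linarith⟩
  have hx0 : 0 < x := by linarith
  set ρ : ℝ := (1 + x) / 2 * x ^ (-c₁) with hρ
  have hρ0 : 0 < ρ := by rw [hρ]; positivity
  have hlog : Real.log ρ < 0 := by
    rw [hρ, Real.log_mul (by positivity) (by positivity), Real.log_rpow hx0]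
    have h1 : Real.log ((1 + x) / 2) ≤ (1 + x) / 2 - 1 := Real.log_le_sub_one_of_pos (by positivity)
    have h2 : Real.log (x⁻¹) ≤ x⁻¹ - 1 := Real.log_le_sub_one_of_pos (by positivity)
    rw [Real.log_inv] at h2
    have h3 : 1 - x⁻¹ ≤ Real.log x := by linarith
    have h4 : c₁ * (1 - x⁻¹) ≤ c₁ * Real.log x := mul_le_mul_of_nonneg_left h3 (by linarith)
    have h5 : (x - 1) / 2 < c₁ * (1 - x⁻¹) := by
      have : c₁ * (1 - x⁻¹) = (c₁ / x) * (x - 1) := by field_simp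
      rw [this]
      have h6 : 1 / 2 < c₁ / x := by rw [lt_div_iff₀ hx0]; linarith
      nlinarith
    linarith
  refine ⟨ρ, hρ0, ?_, fun d hd t A hA => ?_⟩
  · by_contra h
    have := Real.log_nonneg (not_lt.1 h)
    linarith
  have hgen := od_gen hd x t
  have hsum := sum_window_le (g := fun n => x ^ od d t n) (fun n => by positivity) t
    (fun n m => by simp only [od_periodic hd]) hA
  rw [hgen] at hsum
  have hxt : 0 < x ^ (c₁ * t) := Real.rpow_pos_of_pos hx0 _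
  have hmk : (((Wn A).filter (fun n => c₁ * t ≤ (od d t n : ℝ))).card : ℝ) * x ^ (c₁ * t)
      ≤ ∑ n ∈ Wn A, x ^ od d t n := by
    calc (((Wn A).filter (fun n => c₁ * t ≤ (od d t n : ℝ))).card : ℝ) * x ^ (c₁ * t)
        = ∑ n ∈ (Wn A).filter (fun n => c₁ * t ≤ (od d t n : ℝ)), x ^ (c₁ * t) := by
          rw [sum_const, nsmul_eq_mul]
      _ ≤ ∑ n ∈ (Wn A).filter (fun n => c₁ * t ≤ (od d t n : ℝ)), x ^ od d t n := by
          apply sum_le_sum
          intro n hn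
          rw [mem_filter] at hn
          rw [← Real.rpow_natCast x (od d t n)]
          exact Real.rpow_le_rpow_of_exponent_le hx1.le hn.2
      _ ≤ _ := sum_le_sum_of_subset_of_nonneg (filter_subset _ _) fun n _ _ => by positivity
  have h1 : (((Wn A).filter (fun n => c₁ * t ≤ (od d t n : ℝ))).card : ℝ)
      ≤ (A / 2 ^ t + 1) * (1 + x) ^ t / x ^ (c₁ * t) := by
    rw [le_div_iff₀ hxt]; exact hmk.trans hsum
  refine h1.trans (le_of_eq ?_)
  have h2 : ρ ^ t = (1 + x) ^ t / 2 ^ t / x ^ (c₁ * t) := by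
    rw [hρ, mul_pow, div_pow, ← Real.rpow_natCast (x ^ (-c₁)) t, ← Real.rpow_mul hx0.le,
      show -c₁ * (t : ℝ) = -(c₁ * t) by ring, Real.rpow_neg hx0.le, ← div_eq_mul_inv]
  rw [h2]
  field_simp

/-- the integers whose orbit stays above `z` -/
def St (d : ℤ) (z : ℝ) : Set ℤ := {x : ℤ | ∀ k : ℕ, z ≤ (((Tz d)^[k] x : ℤ) : ℝ)}

open scoped Classical in
theorem stay_base {d : ℤ} (hd : d % 2 = 1) {z : ℝ} (hz : 0 < z) {K : ℕ}
    (hK : (K : ℝ) * |(d : ℝ)| ≤ z) {c₁ : ℝ} {A : ℝ}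
    (hcl : ∀ j : ℕ, (j : ℝ) < c₁ * K → 4 * A * 3 ^ j < z * 2 ^ K) :
    ct (St d z) A ≤ (((Wn A).filter (fun n => c₁ * K ≤ (od d K n : ℝ))).card : ℝ) := by
  unfold ct
  have hsub : (Wn A).filter (fun n => n ∈ St d z)
      ⊆ (Wn A).filter (fun n => c₁ * K ≤ (od d K n : ℝ)) := by
    intro x hx
    rw [mem_filter] at hx
    obtain ⟨hxW, hx2⟩ := hx
    have hxW' := hxW
    rw [mem_Wn] at hxW'
    rw [mem_filter]
    refine ⟨hxW, ?_⟩
    have hzx : z ≤ x := hx2 0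
    have hx0 : 0 < x := by
      have : (0 : ℝ) < x := lt_of_lt_of_le hz hzx
      exact_mod_cast this
    by_contra hcon
    push Not at hcon
    have h1 := growth_two hd hz hK hx0 (fun i _ => hx2 i)
    have h2 := hcl _ hcon
    have h3 := hx2 K
    have h4 : z * 2 ^ K ≤ 2 * (3 ^ od d K x * x) :=
      (mul_le_mul_of_nonneg_right h3 (by positivity)).trans h1
    have h5 : 2 * ((3 : ℝ) ^ od d K x * x) ≤ 4 * A * 3 ^ od d K x := by
      have : (0 : ℝ) < 3 ^ od d K x := by positivity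
      nlinarith [hxW'.2]
    linarith
  exact_mod_cast card_le_card hsub

theorem baseU {l : ℝ} (hl : 0 ≤ l) {η : ℝ} (hη : 0 < η) :
    ∃ δ K₁ : ℝ, 0 < δ ∧ 2 ≤ K₁ ∧ ∀ d : ℤ, d % 2 = 1 → ∀ z : ℝ, K₁ * (|(d : ℝ)| + 1) ≤ z → ∀ A₀ : Set ℤ,
      (∀ X : ℝ, ((fA A₀ z X).card : ℝ) ≤ δ * z) →
      ∀ A : ℝ, z / 2 ≤ A → Real.log (A / z) ≤ l → ∀ m : ℕ, (m : ℝ) ≤ l →
        PB (SZ d A₀ z) A m η ∧ PB (St d z) A m η := by
  obtain ⟨ρ, hρ0, hρ1, hod⟩ := od_largeU (c₁ := 0.6) (by norm_num)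
  obtain ⟨M, hM⟩ : ∃ M : ℕ, l ≤ M := exists_nat_ge l
  have hlim : Tendsto (fun K : ℕ => ρ ^ K) atTop (𝓝 0) :=
    tendsto_pow_atTop_nhds_zero_of_lt_one hρ0.le hρ1
  obtain ⟨K, hK1, hK2, hK3⟩ : ∃ K : ℕ, ρ ^ K ≤ η / (8 * 3 ^ M) ∧ 100 * (l + 1) ≤ (K : ℝ) ∧ 1 ≤ K :=
    ((hlim.eventually_le_const (by positivity : (0 : ℝ) < η / (8 * 3 ^ M))).and
      ((tendsto_natCast_atTop_atTop.eventually_ge_atTop (100 * (l + 1))).and
        (eventually_ge_atTop 1))).exists
  refine ⟨η / (16 * 3 ^ M * 2 ^ K), max (max 2 K) (2 * 2 ^ K), by positivity,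
    (le_max_left _ _).trans (le_max_left _ _), ?_⟩
  intro d hd z hz A₀ hA₀ A hA1 hA2 m hm
  have hd0 : 0 ≤ |(d : ℝ)| := abs_nonneg _
  have hq : ∀ b : ℝ, 0 ≤ b → b ≤ max (max 2 (K : ℝ)) (2 * 2 ^ K) → b * (|(d : ℝ)| + 1) ≤ z := fun b hb hb2 =>
    (mul_le_mul_of_nonneg_right hb2 (by linarith)).trans hz
  have hz1 : 1 ≤ z := by
    have := hq 2 (by norm_num) ((le_max_left _ _).trans (le_max_left _ _))
    linarith
  have hzd : K * |(d : ℝ)| ≤ z := by
    have := hq K (by positivity) ((le_max_right _ _).trans (le_max_left _ _))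
    have hKn : (0 : ℝ) ≤ K := Nat.cast_nonneg K
    nlinarith
  have hzK : 2 * 2 ^ K ≤ z := by
    have := hq (2 * 2 ^ K) (by positivity) (le_max_right _ _)
    have hKn : (0 : ℝ) < 2 * 2 ^ K := by positivity
    nlinarith
  have hz0 : 0 < z := by linarith
  have hA0 : 0 < A := by linarith
  have h2KA : (2 : ℝ) ^ K ≤ A := by linarith
  have hln2a := Real.log_two_gt_d9
  have hln3 := log3_le
  have h2K : (2 : ℝ) ^ K = Real.exp (K * Real.log 2) := by
    rw [Real.exp_nat_mul, Real.exp_log (by norm_num)]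
  have hAz : A ≤ z * Real.exp l := by
    have h1 : A / z ≤ Real.exp l := by
      rw [← Real.exp_log (show 0 < A / z by positivity)]
      exact Real.exp_le_exp.2 hA2
    rw [div_le_iff₀ hz0] at h1
    linarith
  have hcl : ∀ j : ℕ, (j : ℝ) < 0.6 * K → 4 * A * 3 ^ j < z * 2 ^ K := by
    intro j hj
    have e1 : (3 : ℝ) ^ j ≤ Real.exp (0.96 * (K * Real.log 2)) := by
      have : (3 : ℝ) ^ j = Real.exp (j * Real.log 3) := by
        rw [Real.exp_nat_mul, Real.exp_log (by norm_num)]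
      rw [this]
      apply Real.exp_le_exp.2
      calc (j : ℝ) * Real.log 3 ≤ (0.6 * K) * (8 / 5 * Real.log 2) := by
            apply mul_le_mul hj.le hln3 (Real.log_nonneg (by norm_num)) (by positivity)
        _ = _ := by ring
    have e2 : 4 * A * 3 ^ j ≤ Real.exp (2 * Real.log 2) * (z * Real.exp l)
        * Real.exp (0.96 * (K * Real.log 2)) := by
      have : Real.exp (2 * Real.log 2) = 4 := by
        rw [show (2 : ℝ) * Real.log 2 = ((2 : ℕ) : ℝ) * Real.log 2 by norm_num, Real.exp_nat_mul,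
          Real.exp_log (by norm_num)]
        norm_num
      rw [this]
      apply mul_le_mul _ e1 (by positivity) (by positivity)
      linarith
    refine e2.trans_lt ?_
    have e3 : Real.exp (2 * Real.log 2) * (z * Real.exp l) * Real.exp (0.96 * (K * Real.log 2))
        = z * Real.exp (2 * Real.log 2 + l + 0.96 * (K * Real.log 2)) := by
      rw [Real.exp_add, Real.exp_add]; ring
    rw [e3, h2K]
    apply mul_lt_mul_of_pos_left _ hz0
    apply Real.exp_lt_exp.2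
    have e4 : 100 * (l + 1) * 0.69 ≤ K * Real.log 2 :=
      mul_le_mul hK2 (by linarith) (by norm_num) (by positivity)
    have e5 : Real.log 2 < 0.6931471808 := Real.log_two_lt_d9
    linarith
  have hbc := base_count hd A₀ hz0 hK3 hzd (c₁ := 0.6) (A := A) hcl
  have hbs := stay_base hd hz0 hzd (c₁ := 0.6) (A := A) hcl
  have hodA := hod d hd K A hA0.le
  have hfA := hA₀ (2 ^ K * (2 * A))
  have h3m : (3 : ℝ) ^ m ≤ 3 ^ M := by
    apply pow_le_pow_right₀ (by norm_num)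
    have : (m : ℝ) ≤ M := hm.trans hM
    exact_mod_cast this
  have hS1 : (2 : ℝ) ^ K * ((fA A₀ z (2 ^ K * (2 * A))).card : ℝ) ≤ η * (A / (8 * 3 ^ M)) := by
    calc (2 : ℝ) ^ K * ((fA A₀ z (2 ^ K * (2 * A))).card : ℝ)
        ≤ 2 ^ K * (η / (16 * 3 ^ M * 2 ^ K) * z) := mul_le_mul_of_nonneg_left hfA (by positivity)
      _ = η / (16 * 3 ^ M) * z := by field_simp
      _ ≤ η / (16 * 3 ^ M) * (2 * A) := mul_le_mul_of_nonneg_left (by linarith) (by positivity)
      _ = _ := by ring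
  have hS2 : (A + 2 ^ K) * ρ ^ K ≤ η * (A / (4 * 3 ^ M)) := by
    calc (A + 2 ^ K) * ρ ^ K ≤ (2 * A) * (η / (8 * 3 ^ M)) :=
          mul_le_mul (by linarith) hK1 (by positivity) (by positivity)
      _ = _ := by ring
  have hfin : η * (A / (2 * 3 ^ M)) ≤ η * (A / (2 * 3 ^ m)) := by
    apply mul_le_mul_of_nonneg_left _ hη.le
    apply div_le_div_of_nonneg_left hA0.le (by positivity)
    linarith
  have h0 : 0 ≤ η * (A / (8 * 3 ^ M)) := by positivity
  have h9 : η * (A / (8 * 3 ^ M)) + η * (A / (4 * 3 ^ M)) ≤ η * (A / (2 * 3 ^ M)) := by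
    have h3M : (0 : ℝ) < 3 ^ M := by positivity
    have e1 : A / (8 * 3 ^ M) = A / 3 ^ M / 8 := by field_simp
    have e2 : A / (4 * 3 ^ M) = A / 3 ^ M / 4 := by field_simp
    have e3 : A / (2 * 3 ^ M) = A / 3 ^ M / 2 := by field_simp
    rw [e1, e2, e3]
    have : 0 ≤ η * (A / 3 ^ M) := by positivity
    nlinarith
  constructor
  · intro v w _
    refine (cls_le_ct _ _ _ _ _).trans (hbc.trans ?_)
    linarith
  · intro v w _
    refine (cls_le_ct _ _ _ _ _).trans (hbs.trans ?_)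
    linarith

end Pool.Agent.H998_TU
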