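import Pool.Agent.H998_TU.Chain
import Pool.Agent.H998_TU.Base
import Pool.Agent.H998_TP.Fin

/-! The transfer principle uniformly in `d`, part 3. -/

set_option autoImplicit false

namespace Pool.Agent.H998_TU

open Finset Filter Topology
open Pool.Agent.H320R2.PD Pool.Agent.H499R2.ND
open Pool.Agent.H499R2.CO (Tz)
open Pool.Agent.R344.SP Pool.Agent.R344.TH
open Pool.Agent.H998_TP (Fp half_step)

theorem St_fwd {d : ℤ} (hd : d % 2 = 1) {z : ℝ} : FwdA d (2 * z) (St d z) := by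
  intro M x e he hM hx _ _ hMS heq
  have hTe : (Tz d)^[e] M = x := by
    obtain ⟨i, rfl⟩ : ∃ i, e = i + 1 := ⟨e - 1, by omega⟩
    rw [iter_syr hd hM heq i le_rfl]; simp
  intro k
  have := hMS (k + e)
  rwa [Function.iterate_add_apply, hTe] at this

theorem small_U {η : ℝ} (hη : 0 < η) :
    ∃ δ z₀ : ℝ, 0 < δ ∧ 2 ≤ z₀ ∧ ∀ d : ℤ, Odd d → IsCoprime d 3 → ∀ z : ℝ, z₀ * (|(d : ℝ)| + 1) ≤ z →
      ∀ A₀ : Set ℤ, (∀ X : ℝ, ((fA A₀ z X).card : ℝ) ≤ δ * z) →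
      ∀ A : ℝ, z / 2 ≤ A → PB (SZ d A₀ z) A 0 η ∧ PB (St d z) A 0 η := by
  obtain ⟨C, hC, hch⟩ := chainU
  obtain ⟨l, hl⟩ : ∃ l : ℝ, l = max 2000 (2 * C / η) := ⟨_, rfl⟩
  have hl1 : 2000 ≤ l := by rw [hl]; exact le_max_left _ _
  have hl2 : 2 * C / η ≤ l := by rw [hl]; exact le_max_right _ _
  have hl0 : 0 < l := by linarith
  have hCl : C / l ≤ η / 2 := by
    rw [div_le_iff₀ hη] at hl2
    rw [div_le_iff₀ hl0]
    linarith
  obtain ⟨δ, z₀, hδ, hz₀, hb⟩ := baseU hl0.le (show 0 < η / 2 by positivity)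
  refine ⟨δ, z₀, hδ, hz₀, ?_⟩
  intro d hd hd3 z hz A₀ hA₀ A hA
  have hd2 : d % 2 = 1 := Int.odd_iff.1 hd
  have hdabs : 0 ≤ |(d : ℝ)| := abs_nonneg _
  have hz2 : |(d : ℝ)| + 2 ≤ z := by nlinarith
  have hz0 : 0 < z := by linarith
  have hA0 : 0 ≤ A := by linarith
  have h1 := hch d hd hd3 l hl1 z hz2 (SZ d A₀ z) (SZ_fwd hd2 hz0)
    (η / 2) (by positivity) (fun A hA hAl m hm => (hb d hd2 z hz A₀ hA₀ A hA hAl m hm).1) A hA
  have h2 := hch d hd hd3 l hl1 z hz2 (St d z) (St_fwd hd2)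
    (η / 2) (by positivity) (fun A hA hAl m hm => (hb d hd2 z hz A₀ hA₀ A hA hAl m hm).2) A hA
  constructor
  · intro u v hu
    refine (h1 u v hu).trans ?_
    apply mul_le_mul_of_nonneg_right _ (by positivity)
    linarith
  · intro u v hu
    refine (h2 u v hu).trans ?_
    apply mul_le_mul_of_nonneg_right _ (by positivity)
    linarith

open scoped Classical in
theorem Fp_countU {ε : ℝ} (hε : 0 < ε) :
    ∃ δ Z₀ : ℝ, 0 < δ ∧ 2 ≤ Z₀ ∧ ∀ d : ℤ, Odd d → IsCoprime d 3 → ∀ Z : ℝ, Z₀ * (|(d : ℝ)| + 1) ≤ Z →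
      ∀ F : Finset ℤ, (F.card : ℝ) ≤ δ * Z →
      ∀ N : ℕ, Z ≤ N → (((Icc (1 : ℤ) N).filter (fun n => Fp d F Z n)).card : ℝ) ≤ ε * N := by
  obtain ⟨δ₁, z₀, hδ₁, hz₀, hPB0⟩ := small_U (show 0 < ε / 4 by positivity)
  refine ⟨min (δ₁ / 2) (ε / 4), 2 * z₀, by positivity, by linarith, ?_⟩
  intro d hd hd3 Z hZ F hF N hZN
  have hd2 : d % 2 = 1 := Int.odd_iff.1 hd
  have hdabs : 0 ≤ |(d : ℝ)| := abs_nonneg _
  have hZ1 : 2 * z₀ ≤ Z := by nlinarith
  have hZd : |(d : ℝ)| ≤ Z := by nlinarith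
  have hPB : ∀ z : ℝ, z₀ * (|(d : ℝ)| + 1) ≤ z → ∀ A₀ : Set ℤ,
      (∀ X : ℝ, ((fA A₀ z X).card : ℝ) ≤ δ₁ * z) →
      ∀ A : ℝ, z / 2 ≤ A → PB (SZ d A₀ z) A 0 (ε / 4) := fun z hz A₀ hA₀ A hA =>
    (hPB0 d hd hd3 z hz A₀ hA₀ A hA).1
  have hZ2 : 2 ≤ Z := by linarith
  have hZ0 : 0 < Z := by linarith
  have hN0 : (0 : ℝ) < N := by linarith
  obtain ⟨z, hz⟩ : ∃ z : ℝ, z = Z / 2 := ⟨_, rfl⟩
  have hz0 : 0 < z := by rw [hz]; positivity
  have hF1 : (F.card : ℝ) ≤ δ₁ * z := by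
    refine hF.trans ?_
    calc min (δ₁ / 2) (ε / 4) * Z ≤ δ₁ / 2 * Z := mul_le_mul_of_nonneg_right (min_le_left _ _) hZ0.le
      _ = _ := by rw [hz]; ring
  have hF2 : (F.card : ℝ) ≤ ε / 4 * Z :=
    hF.trans (mul_le_mul_of_nonneg_right (min_le_right _ _) hZ0.le)
  have hfA : ∀ X : ℝ, ((fA (F : Set ℤ) z X).card : ℝ) ≤ δ₁ * z := by
    intro X
    refine le_trans ?_ hF1
    have : fA (F : Set ℤ) z X ⊆ F := by
      intro x hx
      rw [mem_fA] at hx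
      exact_mod_cast hx.2
    exact_mod_cast card_le_card this
  have hoddc : ∀ X : ℝ, 0 < X → (((Icc (1 : ℤ) ⌊X⌋).filter (fun x => Odd x ∧ x ∈ SZ d (F : Set ℤ) z)).card : ℝ)
      ≤ ε / 4 * X := fun X hX =>
    odd_count (by positivity) (fun x hx => SZ_ge hx)
      (fun A hA => hPB z (by rw [hz]; linarith) (F : Set ℤ) hfA A hA) hX
  obtain ⟨E, hE⟩ : ∃ E : ℕ, (N : ℝ) < 2 ^ E := pow_unbounded_of_one_lt _ (by norm_num)
  set F₁ : ℕ → Finset ℤ := fun e => ((Icc (1 : ℤ) ⌊(N : ℝ) * (1 / 2) ^ e⌋).filter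
    (fun x => Odd x ∧ x ∈ SZ d (F : Set ℤ) z)).image (fun x => 2 ^ e * x) with hF₁
  set F₂ : ℕ → Finset ℤ := fun e => F.image (fun x => 2 ^ e * x) with hF₂
  obtain ⟨Q, hQ⟩ : ∃ Q : ℕ, Q = ⌊(N : ℝ) / Z⌋₊ + 1 := ⟨_, rfl⟩
  have hsub : (Icc (1 : ℤ) N).filter (fun n => Fp d F Z n)
      ⊆ (range E).biUnion F₁ ∪ (range Q).biUnion F₂ := by
    intro n hn
    rw [mem_filter, Finset.mem_Icc] at hn
    obtain ⟨⟨hn1, hn2⟩, k, hk1, hk2, hk3⟩ := hn
    obtain ⟨e, M, hMo, hM0, hnM⟩ := odd_part (by omega : 0 < n)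
    have hnNR : (n : ℝ) ≤ N := by exact_mod_cast hn2
    have hnMR : (n : ℝ) = 2 ^ e * M := by exact_mod_cast hnM
    have hM1 : (1 : ℝ) ≤ M := by
      have : (1 : ℤ) ≤ M := by omega
      exact_mod_cast this
    rw [mem_union, mem_biUnion, mem_biUnion]
    rcases le_or_gt Z (M : ℝ) with hZM | hZM
    · left
      have heE : e < E := by
        by_contra hcon
        push Not at hcon
        have h1 : (2 : ℝ) ^ E ≤ 2 ^ e := pow_le_pow_right₀ (by norm_num) hcon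
        have h2 : (2 : ℝ) ^ e ≤ n := by rw [hnMR]; exact le_mul_of_one_le_right (by positivity) hM1
        linarith
      have hek : e < k := by
        by_contra hcon
        push Not at hcon
        rw [hnM, iter_pow_two M k e hcon] at hk2
        push_cast at hk2
        have : (1 : ℝ) ≤ 2 ^ (e - k) := one_le_pow₀ (by norm_num)
        nlinarith
      refine ⟨e, mem_range.2 heE, ?_⟩
      rw [hF₁]
      simp only [mem_image, mem_filter, Finset.mem_Icc, Int.le_floor]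
      have hTe : (Tz d)^[e] n = M := by
        rw [hnM, iter_pow_two M e e le_rfl]; simp
      have hsh : ∀ j, (Tz d)^[j] M = (Tz d)^[j + e] n := by
        intro j
        rw [Function.iterate_add_apply, hTe]
      have hlast : z ≤ (((Tz d)^[k] n : ℤ) : ℝ) := by
        obtain ⟨k', hk'⟩ : ∃ k', k = k' + 1 := ⟨k - 1, by omega⟩
        rw [hk', Function.iterate_succ_apply', hz]
        exact half_step hd2 hZd (hk3 k' (by omega))
      refine ⟨M, ⟨⟨by omega, ?_⟩, hMo, k - e, ?_, ?_, k - e, le_rfl, ?_⟩, hnM.symm⟩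
      · rw [one_div, inv_pow, ← div_eq_mul_inv, le_div_iff₀ (by positivity)]
        linarith
      · rw [hsh, Nat.sub_add_cancel hek.le]; exact hk1
      · intro j hj
        rw [hsh]
        rcases Nat.lt_or_ge (j + e) k with h | h
        · have := hk3 (j + e) h
          linarith
        · have : j + e = k := by omega
          rw [this]; exact hlast
      · rw [hsh, Nat.sub_add_cancel hek.le, hz]
        linarith
    · right
      have hek : k ≤ e := by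
        by_contra hcon
        push Not at hcon
        have := hk3 e hcon
        rw [hnM, iter_pow_two M e e le_rfl] at this
        simp at this
        linarith
      have hTk : (Tz d)^[k] n = 2 ^ (e - k) * M := by
        rw [hnM, iter_pow_two M k e hek]
      refine ⟨k, ?_, ?_⟩
      · rw [mem_range, hQ]
        rcases Nat.eq_zero_or_pos k with h0 | h0
        · omega
        · apply Nat.lt_succ_of_le
          rw [Nat.le_floor_iff (by positivity), le_div_iff₀ hZ0]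
          obtain ⟨k', hk'⟩ : ∃ k', k = k' + 1 := ⟨k - 1, by omega⟩
          have h1 := hk3 k' (by omega)
          rw [hnM, iter_pow_two M k' e (by omega)] at h1
          push_cast at h1
          have h2 : (k : ℝ) ≤ 2 ^ k' := by
            have : k ≤ 2 ^ k' := by
              have := Nat.lt_two_pow_self (n := k')
              omega
            exact_mod_cast this
          calc (k : ℝ) * Z ≤ 2 ^ k' * (2 ^ (e - k') * M) :=
                mul_le_mul h2 h1 hZ0.le (by positivity)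
            _ = 2 ^ e * M := by rw [← mul_assoc, ← pow_add, Nat.add_sub_cancel' (by omega)]
            _ ≤ N := by rw [← hnMR]; exact hnNR
      · rw [hF₂]
        simp only [mem_image]
        refine ⟨2 ^ (e - k) * M, ?_, ?_⟩
        · rw [← hTk]; exact_mod_cast hk1
        · rw [← mul_assoc, ← pow_add, Nat.add_sub_cancel' hek]; exact hnM.symm
  have hc1 : (((Icc (1 : ℤ) N).filter (fun n => Fp d F Z n)).card : ℝ)
      ≤ ∑ e ∈ range E, ((F₁ e).card : ℝ) + ∑ e ∈ range Q, ((F₂ e).card : ℝ) := by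
    have h1 := (card_le_card hsub).trans (card_union_le _ _)
    have h2 : ((range E).biUnion F₁).card ≤ ∑ e ∈ range E, (F₁ e).card := card_biUnion_le
    have h3 : ((range Q).biUnion F₂).card ≤ ∑ e ∈ range Q, (F₂ e).card := card_biUnion_le
    have h4 := h1.trans (add_le_add h2 h3)
    exact_mod_cast h4
  have hF₁c : ∀ e ∈ range E, ((F₁ e).card : ℝ) ≤ ε / 4 * N * (1 / 2) ^ e := by
    intro e _
    have h1 : ((F₁ e).card : ℝ) ≤ (((Icc (1 : ℤ) ⌊(N : ℝ) * (1 / 2) ^ e⌋).filter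
      (fun x => Odd x ∧ x ∈ SZ d (F : Set ℤ) z)).card : ℝ) := by exact_mod_cast card_image_le
    refine h1.trans ((hoddc _ (by positivity)).trans (le_of_eq ?_))
    ring
  have hF₂c : ∀ e ∈ range Q, ((F₂ e).card : ℝ) ≤ ε / 4 * Z := by
    intro e _
    refine le_trans ?_ hF2
    exact_mod_cast card_image_le
  have hs1 : ∑ e ∈ range E, ((F₁ e).card : ℝ) ≤ ε / 2 * N := by
    refine (sum_le_sum hF₁c).trans ?_
    rw [← mul_sum]
    calc ε / 4 * N * ∑ i ∈ range E, (1 / 2 : ℝ) ^ i ≤ ε / 4 * N * 2 :=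
          mul_le_mul_of_nonneg_left (geom_half E) (by positivity)
      _ = _ := by ring
  have hs2 : ∑ e ∈ range Q, ((F₂ e).card : ℝ) ≤ ε / 2 * N := by
    refine (sum_le_sum hF₂c).trans ?_
    rw [sum_const, card_range, nsmul_eq_mul, hQ]
    have h1 : (⌊(N : ℝ) / Z⌋₊ : ℝ) ≤ N / Z := Nat.floor_le (by positivity)
    have h2 : (N : ℝ) / Z * Z = N := div_mul_cancel₀ _ hZ0.ne'
    push_cast
    have h3 : ((⌊(N : ℝ) / Z⌋₊ : ℝ) + 1) * Z ≤ 2 * N := by
      have := mul_le_mul_of_nonneg_right h1 hZ0.le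
      linarith
    calc ((⌊(N : ℝ) / Z⌋₊ : ℝ) + 1) * (ε / 4 * Z) = ε / 4 * (((⌊(N : ℝ) / Z⌋₊ : ℝ) + 1) * Z) := by ring
      _ ≤ ε / 4 * (2 * N) := mul_le_mul_of_nonneg_left h3 (by positivity)
      _ = _ := by ring
  linarith


open scoped Classical in
theorem St_countU {ε : ℝ} (hε : 0 < ε) :
    ∃ Z₀ : ℝ, 2 ≤ Z₀ ∧ ∀ d : ℤ, Odd d → IsCoprime d 3 → ∀ Z : ℝ, Z₀ * (|(d : ℝ)| + 1) ≤ Z →
      ∀ N : ℕ, 1 ≤ N → (((Icc (1 : ℤ) N).filter (fun n => n ∈ St d Z)).card : ℝ) ≤ ε * N := by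
  obtain ⟨δ, z₀, hδ, hz₀, h⟩ := small_U (show 0 < ε / 2 by positivity)
  refine ⟨z₀, hz₀, ?_⟩
  intro d hd hd3 Z hZ N hN
  have hdabs : 0 ≤ |(d : ℝ)| := abs_nonneg _
  have hZ0 : 0 < Z := by nlinarith
  have hN0 : (0 : ℝ) < N := by exact_mod_cast hN
  have hfA : ∀ X : ℝ, ((fA (∅ : Set ℤ) Z X).card : ℝ) ≤ δ * Z := by
    intro X
    have : fA (∅ : Set ℤ) Z X = ∅ := by
      rw [Finset.eq_empty_iff_forall_notMem]
      intro x hx
      rw [mem_fA] at hx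
      exact hx.2
    rw [this, card_empty, Nat.cast_zero]
    positivity
  have hoddc : ∀ X : ℝ, 0 < X → (((Icc (1 : ℤ) ⌊X⌋).filter (fun x => Odd x ∧ x ∈ St d Z)).card : ℝ)
      ≤ ε / 2 * X := fun X hX =>
    odd_count (by positivity) (fun x hx => hx 0)
      (fun A hA => (h d hd hd3 Z hZ ∅ hfA A hA).2) hX
  obtain ⟨E, hE⟩ : ∃ E : ℕ, (N : ℝ) < 2 ^ E := pow_unbounded_of_one_lt _ (by norm_num)
  set F₁ : ℕ → Finset ℤ := fun e => ((Icc (1 : ℤ) ⌊(N : ℝ) * (1 / 2) ^ e⌋).filter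
    (fun x => Odd x ∧ x ∈ St d Z)).image (fun x => 2 ^ e * x) with hF₁
  have hsub : (Icc (1 : ℤ) N).filter (fun n => n ∈ St d Z) ⊆ (range E).biUnion F₁ := by
    intro n hn
    rw [mem_filter, Finset.mem_Icc] at hn
    obtain ⟨⟨hn1, hn2⟩, hk⟩ := hn
    obtain ⟨e, M, hMo, hM0, hnM⟩ := odd_part (by omega : 0 < n)
    have hnNR : (n : ℝ) ≤ N := by exact_mod_cast hn2
    have hnMR : (n : ℝ) = 2 ^ e * M := by exact_mod_cast hnM
    have hM1 : (1 : ℝ) ≤ M := by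
      have : (1 : ℤ) ≤ M := by omega
      exact_mod_cast this
    rw [mem_biUnion]
    have heE : e < E := by
      by_contra hcon
      push Not at hcon
      have h1 : (2 : ℝ) ^ E ≤ 2 ^ e := pow_le_pow_right₀ (by norm_num) hcon
      have h2 : (2 : ℝ) ^ e ≤ n := by rw [hnMR]; exact le_mul_of_one_le_right (by positivity) hM1
      linarith
    refine ⟨e, mem_range.2 heE, ?_⟩
    rw [hF₁]
    simp only [mem_image, mem_filter, Finset.mem_Icc, Int.le_floor]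
    have hTe : (Tz d)^[e] n = M := by
      rw [hnM, iter_pow_two M e e le_rfl]; simp
    refine ⟨M, ⟨⟨by omega, ?_⟩, hMo, ?_⟩, hnM.symm⟩
    · rw [one_div, inv_pow, ← div_eq_mul_inv, le_div_iff₀ (by positivity)]
      linarith
    · intro j
      have := hk (j + e)
      rwa [Function.iterate_add_apply, hTe] at this
  have hc1 : (((Icc (1 : ℤ) N).filter (fun n => n ∈ St d Z)).card : ℝ) ≤ ∑ e ∈ range E, ((F₁ e).card : ℝ) := by
    have := (card_le_card hsub).trans card_biUnion_le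
    exact_mod_cast this
  have hF₁c : ∀ e ∈ range E, ((F₁ e).card : ℝ) ≤ ε / 2 * N * (1 / 2) ^ e := by
    intro e _
    have h1 : ((F₁ e).card : ℝ) ≤ (((Icc (1 : ℤ) ⌊(N : ℝ) * (1 / 2) ^ e⌋).filter
      (fun x => Odd x ∧ x ∈ St d Z)).card : ℝ) := by exact_mod_cast card_image_le
    refine h1.trans ((hoddc _ (by positivity)).trans (le_of_eq ?_))
    ring
  refine hc1.trans ((sum_le_sum hF₁c).trans ?_)
  rw [← mul_sum]
  calc ε / 2 * N * ∑ i ∈ range E, (1 / 2 : ℝ) ^ i ≤ ε / 2 * N * 2 :=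
        mul_le_mul_of_nonneg_left (geom_half E) (by positivity)
    _ = _ := by ring

open scoped Classical in
/-- the first term below `Z` avoids sets of small density, uniformly in `d` -/
theorem transferU {ε : ℝ} (hε : 0 < ε) :
    ∃ δ K₂ : ℝ, 0 < δ ∧ 2 ≤ K₂ ∧ ∀ d : ℤ, Odd d → IsCoprime d 3 → ∀ Z : ℝ, K₂ * (|(d : ℝ)| + 1) ≤ Z →
      ∀ F : Finset ℤ, (F.card : ℝ) ≤ δ * Z →
      ∀ N : ℕ, Z ≤ N → (((Icc (1 : ℤ) N).filter (fun n => ¬ ∃ k : ℕ, (Tz d)^[k] n ∉ F ∧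
        (((Tz d)^[k] n : ℤ) : ℝ) < Z ∧ ∀ j < k, Z ≤ (((Tz d)^[j] n : ℤ) : ℝ))).card : ℝ) ≤ ε * N := by
  obtain ⟨δ, Z₁, hδ, hZ₁, h1⟩ := Fp_countU (show 0 < ε / 2 by positivity)
  obtain ⟨Z₂, hZ₂, h2⟩ := St_countU (show 0 < ε / 2 by positivity)
  refine ⟨δ, max Z₁ Z₂, hδ, hZ₁.trans (le_max_left _ _), ?_⟩
  intro d hd hd3 Z hZ F hF N hN
  have hdabs : 0 ≤ |(d : ℝ)| := abs_nonneg _
  have hZa : Z₁ * (|(d : ℝ)| + 1) ≤ Z := (mul_le_mul_of_nonneg_right (le_max_left _ _) (by linarith)).trans hZ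
  have hZb : Z₂ * (|(d : ℝ)| + 1) ≤ Z := (mul_le_mul_of_nonneg_right (le_max_right _ _) (by linarith)).trans hZ
  have hN1 : 1 ≤ N := by
    have : (1 : ℝ) ≤ N := by nlinarith
    exact_mod_cast this
  have e1 := h1 d hd hd3 Z hZa F hF N hN
  have e2 := h2 d hd hd3 Z hZb N hN1
  have hsub : (Icc (1 : ℤ) N).filter (fun n => ¬ ∃ k : ℕ, (Tz d)^[k] n ∉ F ∧
        (((Tz d)^[k] n : ℤ) : ℝ) < Z ∧ ∀ j < k, Z ≤ (((Tz d)^[j] n : ℤ) : ℝ))
      ⊆ (Icc (1 : ℤ) N).filter (fun n => Fp d F Z n)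
        ∪ (Icc (1 : ℤ) N).filter (fun n => n ∈ St d Z) := by
    intro n hn
    rw [mem_filter] at hn
    obtain ⟨hn1, hn2⟩ := hn
    rw [mem_union, mem_filter, mem_filter]
    by_cases hst : ∀ k : ℕ, Z ≤ (((Tz d)^[k] n : ℤ) : ℝ)
    · exact Or.inr ⟨hn1, hst⟩
    · left
      push Not at hst
      have hmin := Nat.find_spec hst
      have hle := fun j (hj : j < Nat.find hst) => Nat.find_min hst hj
      refine ⟨hn1, Nat.find hst, ?_, hmin, fun j hj => not_lt.1 (hle j hj)⟩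
      by_contra hcon
      exact hn2 ⟨Nat.find hst, fun h => hcon (by exact_mod_cast h), hmin, fun j hj => not_lt.1 (hle j hj)⟩
  have h3 := (card_le_card hsub).trans (card_union_le _ _)
  have h4 : (((Icc (1 : ℤ) N).filter (fun n => ¬ ∃ k : ℕ, (Tz d)^[k] n ∉ F ∧
        (((Tz d)^[k] n : ℤ) : ℝ) < Z ∧ ∀ j < k, Z ≤ (((Tz d)^[j] n : ℤ) : ℝ))).card : ℝ)
      ≤ (((Icc (1 : ℤ) N).filter (fun n => Fp d F Z n)).card : ℝ)
        + (((Icc (1 : ℤ) N).filter (fun n => n ∈ St d Z)).card : ℝ) := by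
    exact_mod_cast h3
  linarith

end Pool.Agent.H998_TU
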