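import Pool.Agent.H998_TU.Sign
import Pool.Agent.H998_TP.WinI
import Pool.Agent.R344.SP.I
import Pool.Agent.R105.CZ.Signs

/-! The sampling principle of the starting files for the `3x+d` maps, at every scale. -/

set_option autoImplicit false

namespace Pool.Agent.H998_TU

open Finset Filter Topology
open Pool.Agent.H499R2.CO (Tz)
open Pool.Agent.H998_TP (params small_count fin_abs fin_lt abs_floor)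
open Pool.Agent.R105.CZ

/-- every window -/
theorem windowsK {d : ℤ} (hd : d % 2 = 1) (hd3 : ¬ (3 : ℤ) ∣ d) {T : ℤ → ℤ}
    (hT : ∀ x, T x = if x % 2 = 0 then x / 2 else (3 * x + d) / 2)
    (κ ε : ℝ) (hκ : κ < 2 / Real.log (4 / 3)) (hε : 0 < ε) :
    ∃ κ₁ ε₁ : ℝ, κ₁ < 2 / Real.log (4 / 3) ∧ 0 < ε₁ ∧ ∀ (W : Type) (P : W → Prop) (val : W → ℕ → ℤ → ℝ),
    (∃ N₀ : ℕ, ∀ N ≥ N₀, ∀ w : W, P w →
      (Set.ncard {n : ℤ | n ≠ 0 ∧ |n| ≤ N ∧ ∃ t : ℕ, (t : ℝ) ≤ κ₁ * Real.log |(n : ℝ)| ∧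
        ε₁ * Real.log |(n : ℝ)| < val w t n} : ℝ) ≤ ε₁ * N) →
    ∃ Z₀ : ℝ, 2 ≤ Z₀ ∧ ∀ (Z : ℝ) (N : ℕ), Z₀ ≤ Z → Z ≤ N → ∀ w : W, P w →
      (Set.ncard {n : ℤ | n ≠ 0 ∧ |n| ≤ N ∧ ¬ ∃ k : ℕ, |((T^[k] n : ℤ) : ℝ)| < Z ∧
        (∀ j < k, Z ≤ |((T^[j] n : ℤ) : ℝ)|) ∧
        ∀ t : ℕ, (t : ℝ) ≤ κ * Real.log Z → val w t (T^[k] n) ≤ ε * Real.log Z} : ℝ) ≤ ε * N := by
  classical
  obtain ⟨δ, K, hδ, hK, htr⟩ := bothU hε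
  obtain ⟨Z₁, hZ₁⟩ : ∃ Z₁ : ℝ, Z₁ = K * |(d : ℝ)| := ⟨_, rfl⟩
  obtain ⟨κ₁, ε₁, Z₂, hκ₁, hε₁, hεε, hεδ, hZ₂, hpar⟩ := params hκ hε hδ
  refine ⟨κ₁, ε₁, hκ₁, hε₁, fun W P val h => ?_⟩
  obtain ⟨N₀, hN₀⟩ := h
  refine ⟨max (max Z₁ Z₂) (max (N₀ + 1) 2), (le_max_right _ _).trans (le_max_right _ _), ?_⟩
  intro Z N hZ hZN w hw
  have hZa : Z₁ ≤ Z := ((le_max_left _ _).trans (le_max_left _ _)).trans hZ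
  have hZb : Z₂ ≤ Z := ((le_max_right _ _).trans (le_max_left _ _)).trans hZ
  have hZc : (N₀ : ℝ) + 1 ≤ Z := ((le_max_left _ _).trans (le_max_right _ _)).trans hZ
  have hZd : 2 ≤ Z := ((le_max_right _ _).trans (le_max_right _ _)).trans hZ
  have hZ0 : 0 < Z := by linarith
  obtain ⟨M, hM⟩ : ∃ M : ℕ, M = ⌊Z⌋₊ := ⟨_, rfl⟩
  have hMZ : (M : ℝ) ≤ Z := by rw [hM]; exact Nat.floor_le hZ0.le
  have hMN : N₀ ≤ M := by rw [hM]; apply Nat.le_floor; linarith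
  obtain ⟨A, hA⟩ : ∃ A : Set ℤ, A = {m : ℤ | ∃ t : ℕ, (t : ℝ) ≤ κ * Real.log Z ∧
    ε * Real.log Z < val w t m} := ⟨_, rfl⟩
  have hAc : (Set.ncard {a : ℤ | a ∈ A ∧ a ≠ 0 ∧ |(a : ℝ)| < Z} : ℝ) ≤ δ * Z := by
    have h1 := hN₀ M hMN w hw
    have hsub : {a : ℤ | a ∈ A ∧ a ≠ 0 ∧ |(a : ℝ)| < Z}
        ⊆ {a : ℤ | a ≠ 0 ∧ |(a : ℝ)| ≤ ε₁ * Z} ∪ {n : ℤ | n ≠ 0 ∧ |n| ≤ M ∧ ∃ t : ℕ,
          (t : ℝ) ≤ κ₁ * Real.log |(n : ℝ)| ∧ ε₁ * Real.log |(n : ℝ)| < val w t n} := by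
      rintro a ⟨ha1, ha2, ha3⟩
      rcases le_or_gt |(a : ℝ)| (ε₁ * Z) with hc | hc
      · left
        exact ⟨ha2, hc⟩
      · right
        rw [hA] at ha1
        obtain ⟨t, ht1, ht2⟩ := ha1
        have ha1R : (1 : ℝ) ≤ |(a : ℝ)| := by
          have : (1 : ℤ) ≤ |a| := Int.one_le_abs ha2
          exact_mod_cast this
        refine ⟨ha2, ?_, t, ht1.trans (hpar Z hZb _ hc.le), lt_of_le_of_lt ?_ ht2⟩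
        · rw [hM]; exact abs_floor ha3
        · apply mul_le_mul hεε _ (Real.log_nonneg ha1R) hε.le
          exact Real.log_le_log (by linarith) ha3.le
    have h2 := (Set.ncard_le_ncard hsub ((fin_lt _).union (fin_abs M _))).trans (Set.ncard_union_le _ _)
    have h3 := small_count (Y := ε₁ * Z) (by positivity)
    have h4 : (Set.ncard {a : ℤ | a ∈ A ∧ a ≠ 0 ∧ |(a : ℝ)| < Z} : ℝ)
        ≤ (Set.ncard {a : ℤ | a ≠ 0 ∧ |(a : ℝ)| ≤ ε₁ * Z} : ℝ)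
        + (Set.ncard {n : ℤ | n ≠ 0 ∧ |n| ≤ M ∧ ∃ t : ℕ,
          (t : ℝ) ≤ κ₁ * Real.log |(n : ℝ)| ∧ ε₁ * Real.log |(n : ℝ)| < val w t n} : ℝ) := by exact_mod_cast h2
    have h5 : ε₁ * M ≤ ε₁ * Z := mul_le_mul_of_nonneg_left hMZ hε₁.le
    nlinarith
  refine le_trans ?_ (htr d hd hd3 T hT Z N (by rw [← hZ₁]; exact hZa) hZN A hAc)
  have hsub : {n : ℤ | n ≠ 0 ∧ |n| ≤ N ∧ ¬ ∃ k : ℕ, |((T^[k] n : ℤ) : ℝ)| < Z ∧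
        (∀ j < k, Z ≤ |((T^[j] n : ℤ) : ℝ)|) ∧
        ∀ t : ℕ, (t : ℝ) ≤ κ * Real.log Z → val w t (T^[k] n) ≤ ε * Real.log Z}
      ⊆ {n : ℤ | n ≠ 0 ∧ |n| ≤ N ∧ ¬ ∃ k : ℕ, T^[k] n ∉ A ∧
        |((T^[k] n : ℤ) : ℝ)| < Z ∧ ∀ j < k, Z ≤ |((T^[j] n : ℤ) : ℝ)|} := by
    rintro n ⟨h1, h2, h3⟩
    refine ⟨h1, h2, ?_⟩
    rintro ⟨k, g1, g2, g3⟩
    refine h3 ⟨k, g2, g3, fun t ht => ?_⟩
    by_contra hcon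
    push Not at hcon
    apply g1
    rw [hA]
    exact ⟨t, ht, hcon⟩
  exact_mod_cast Set.ncard_le_ncard hsub (fin_abs N _)

/-- the sampling principle (starting files) -/
theorem samp0 {d : ℤ} (hd : Odd d) (h3 : ¬ (3 : ℤ) ∣ d) {T : ℤ → ℤ} (hT : T = Tz d) (κ ε : ℝ)
    (hκ : κ < 2 / Real.log (4 / 3)) (hε : 0 < ε) :
    ∃ m : ℕ, ∀ (q : ℤ) (H : ℕ), d * 3 ^ m ∣ q → 1 ≤ H → ∃ N₀ : ℕ, ∀ N ≥ N₀, ∀ g : ℕ → ℤ → ℝ,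
      (∀ k x, |g k x| ≤ 1) →
        (Set.ncard {x : ℤ | x ≠ 0 ∧ |x| ≤ N ∧ ∃ t : ℕ, (t : ℝ) ≤ κ * Real.log |(x : ℝ)| ∧
          ε * Real.log |(x : ℝ)| < |∑ k ∈ Finset.range t, (g k (T^[k] x) -
            (∑ h ∈ Finset.range H, g k (T^[k] x + q * h)) / H)|} : ℝ) ≤ ε * N := by
  have hd1 : d % 2 = 1 := Int.odd_iff.1 hd
  have hd1' : (-d) % 2 = 1 := by omega
  obtain ⟨κ', hκ0, hκκ, hκ1⟩ := R344.SP.kappa_bridge hκ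
  obtain ⟨m₁, hm₁⟩ := R344.SP.sampling hd1 (cop_of h3) hκ0 hκ1 (ε := ε / 4) (by positivity)
  obtain ⟨m₂, hm₂⟩ := R344.SP.sampling hd1' (cop_neg (cop_of h3)) hκ0 hκ1 (ε := ε / 4) (by positivity)
  refine ⟨max m₁ m₂, fun q H hq hH => ?_⟩
  have hq₁ : d * 3 ^ m₁ ∣ q :=
    (mul_dvd_mul_left d (pow_dvd_pow 3 (le_max_left _ _))).trans hq
  have hq₂ : -d * 3 ^ m₂ ∣ -q := by
    rw [neg_mul, neg_dvd, dvd_neg]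
    exact (mul_dvd_mul_left d (pow_dvd_pow 3 (le_max_right _ _))).trans hq
  obtain ⟨N₁, hN₁⟩ := hm₁ q H hq₁ hH
  obtain ⟨N₂, hN₂⟩ := hm₂ (-q) H hq₂ hH
  obtain ⟨N₀, hN₀⟩ := both (α := {g : ℕ → ℤ → ℝ // ∀ k x, |g k x| ≤ 1}) hκκ
    (fun g x t => |∑ k ∈ Finset.range t, (g.1 k (T^[k] x) -
      (∑ h ∈ Finset.range H, g.1 k (T^[k] x + q * h)) / H)|) hε (by
    intro s hs
    rcases hs with rfl | rfl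
    · refine ⟨N₁, fun N hN g S hS => hN₁ N hN g.1 g.2 S ?_⟩
      intro n hn
      obtain ⟨h1, h2, t, ht, hbig⟩ := hS n hn
      refine ⟨h1, h2, t, ht, ?_⟩
      simpa only [one_mul, hT] using hbig
    · refine ⟨N₂, fun N hN g S hS => hN₂ N hN (fun k x => g.1 k (-x)) (fun k x => g.2 _ _) S ?_⟩
      intro n hn
      obtain ⟨h1, h2, t, ht, hbig⟩ := hS n hn
      refine ⟨h1, h2, t, ht, hbig.trans_eq ?_⟩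
      congr 1
      apply Finset.sum_congr rfl
      intro k _
      rw [neg_one_mul, hT, iter_neg hd1]
      have e : ∀ h : ℕ, -((Tz (-d))^[k] (n : ℤ)) + q * h = -((Tz (-d))^[k] (n : ℤ) + -q * h) := by
        intro h; ring
      simp only [e])
  exact ⟨N₀, fun N hN g hg => hN₀ N hN ⟨g, hg⟩⟩

/-- the sampling principle at every scale -/
theorem samp {d : ℤ} (hd : Odd d) (h3 : ¬ (3 : ℤ) ∣ d) {T : ℤ → ℤ}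
    (hT : ∀ x, T x = if x % 2 = 0 then x / 2 else (3 * x + d) / 2) (κ ε : ℝ)
    (hκ : κ < 2 / Real.log (4 / 3)) (hε : 0 < ε) :
    ∃ m : ℕ, ∀ (q : ℤ) (H : ℕ), d * 3 ^ m ∣ q → 1 ≤ H → ∃ Z₀ : ℝ, 2 ≤ Z₀ ∧ ∀ (Z : ℝ) (N : ℕ), Z₀ ≤ Z →
      Z ≤ N → ∀ g : ℕ → ℤ → ℝ, (∀ i x, |g i x| ≤ 1) →
        (Set.ncard {x : ℤ | x ≠ 0 ∧ |x| ≤ N ∧ ¬ ∃ k : ℕ, |((T^[k] x : ℤ) : ℝ)| < Z ∧
          (∀ j < k, Z ≤ |((T^[j] x : ℤ) : ℝ)|) ∧ ∀ t : ℕ, (t : ℝ) ≤ κ * Real.log Z →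
          |∑ i ∈ Finset.range t, (g i (T^[i] (T^[k] x)) -
            (∑ h ∈ Finset.range H, g i (T^[i] (T^[k] x) + q * h)) / H)| ≤ ε * Real.log Z} : ℝ) ≤ ε * N := by
  have hT' : T = Tz d := by
    funext x
    rw [hT]
    rfl
  obtain ⟨κ₁, ε₁, hκ₁, hε₁, hw⟩ := windowsK (Int.odd_iff.1 hd) h3 hT κ ε hκ hε
  obtain ⟨m, hm⟩ := samp0 hd h3 hT' κ₁ ε₁ hκ₁ hε₁
  refine ⟨m, fun q H hq hH => ?_⟩
  exact hw (ℕ → ℤ → ℝ) (fun g => ∀ i x, |g i x| ≤ 1) (fun g t n => |∑ i ∈ Finset.range t,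
    (g i (T^[i] n) - (∑ h ∈ Finset.range H, g i (T^[i] n + q * h)) / H)|) (hm q H hq hH)

end Pool.Agent.H998_TU
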