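import Pool.Agent.H998_TU.Fin

/-! The transfer principle uniformly in `d`, part 4: integers of both signs. -/

set_option autoImplicit false

namespace Pool.Agent.H998_TU

open Finset Filter Topology
open Pool.Agent.H499R2.CO (Tz)
open Pool.Agent.H998_TP (half_step)

theorem T_signU {T : ℤ → ℤ} {d : ℤ} (hT : ∀ x, T x = if x % 2 = 0 then x / 2 else (3 * x + d) / 2)
    (hd : d % 2 = 1) (s : ℤ) (hs : s = 1 ∨ s = -1) (x : ℤ) : T (s * x) = s * Tz (s * d) x := by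
  rw [hT]
  unfold Tz
  rcases hs with rfl | rfl
  · simp only [one_mul]
  · by_cases h : x % 2 = 0
    · rw [if_pos (by omega), if_pos h]; omega
    · rw [if_neg (by omega), if_neg h]; omega

theorem T_iterU {T : ℤ → ℤ} {d : ℤ} (hT : ∀ x, T x = if x % 2 = 0 then x / 2 else (3 * x + d) / 2)
    (hd : d % 2 = 1) (s : ℤ) (hs : s = 1 ∨ s = -1) : ∀ (k : ℕ) (x : ℤ),
    T^[k] (s * x) = s * (Tz (s * d))^[k] x
  | 0, x => rfl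
  | k + 1, x => by
    rw [Function.iterate_succ_apply, T_signU hT hd s hs, T_iterU hT hd s hs k, Function.iterate_succ_apply]

theorem signU {ε : ℝ} (hε : 0 < ε) (s : ℤ) (hs : s = 1 ∨ s = -1) :
    ∃ δ K : ℝ, 0 < δ ∧ 4 ≤ K ∧ ∀ d : ℤ, d % 2 = 1 → ¬ (3 : ℤ) ∣ d → ∀ T : ℤ → ℤ,
      (∀ x, T x = if x % 2 = 0 then x / 2 else (3 * x + d) / 2) → ∀ (Z : ℝ) (N : ℕ), K * |(d : ℝ)| ≤ Z →
      Z ≤ N → ∀ A : Set ℤ,
      (Set.ncard {a : ℤ | a ∈ A ∧ a ≠ 0 ∧ |(a : ℝ)| < Z} : ℝ) ≤ δ * Z →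
      (Set.ncard {n : ℤ | (0 < s * n ∧ s * n ≤ N) ∧ ¬ ∃ k : ℕ, T^[k] n ∉ A ∧
        |((T^[k] n : ℤ) : ℝ)| < Z ∧ ∀ j < k, Z ≤ |((T^[j] n : ℤ) : ℝ)|} : ℝ) ≤ ε * N := by
  classical
  have hss : s * s = 1 := by rcases hs with rfl | rfl <;> norm_num
  have hsR : |(s : ℝ)| = 1 := by rcases hs with rfl | rfl <;> norm_num
  obtain ⟨δ, K, hδ, hK, h⟩ := transferU hε
  refine ⟨δ, 2 * K, hδ, by linarith, fun d hd hd3 T hT Z N hZ hZN A hA => ?_⟩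
  have hdne : d ≠ 0 := by rintro rfl; norm_num at hd
  have hd1 : (1 : ℝ) ≤ |(d : ℝ)| := by exact_mod_cast Int.one_le_abs hdne
  have hZ2 : K * (|((s * d : ℤ) : ℝ)| + 1) ≤ Z := by
    rw [Int.cast_mul, abs_mul, hsR, one_mul]
    nlinarith
  have hZd : |((s * d : ℤ) : ℝ)| ≤ Z := by
    rw [Int.cast_mul, abs_mul, hsR, one_mul]
    nlinarith
  have hZ0 : 0 < Z := by nlinarith
  have hsodd : Odd (s * d) := by
    rw [Int.odd_iff]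
    rcases hs with rfl | rfl <;> omega
  have hs3 : IsCoprime (s * d) 3 := by
    have h3 : IsCoprime d 3 := ((Prime.coprime_iff_not_dvd Int.prime_three).2 hd3).symm
    rcases hs with rfl | rfl
    · rwa [one_mul]
    · rw [neg_one_mul]; exact h3.neg_left
  have hfinA : {a : ℤ | a ∈ A ∧ a ≠ 0 ∧ |(a : ℝ)| < Z}.Finite := by
    apply (Set.finite_Icc (-⌊Z⌋) ⌊Z⌋).subset
    rintro a ⟨_, _, ha⟩
    rw [abs_lt] at ha
    rw [Set.mem_Icc, neg_le, Int.le_floor, Int.le_floor]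
    push_cast
    exact ⟨by linarith [ha.1], ha.2.le⟩
  rw [Set.ncard_eq_toFinset_card _ hfinA] at hA
  obtain ⟨F, hF⟩ : ∃ F : Finset ℤ, F = hfinA.toFinset.image (fun a : ℤ => s * a) := ⟨_, rfl⟩
  have hFc : (F.card : ℝ) ≤ δ * Z := by
    refine le_trans ?_ hA
    rw [hF]
    exact_mod_cast card_image_le
  have h1 := h (s * d) hsodd hs3 Z hZ2 F hFc N hZN
  refine le_trans ?_ h1
  have hinj : Function.Injective (fun n : ℤ => s * n) := by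
    intro a b hab
    simp only at hab
    have : s * (s * a) = s * (s * b) := by rw [hab]
    rwa [← mul_assoc, ← mul_assoc, hss, one_mul, one_mul] at this
  have hsub : (fun n : ℤ => s * n) '' {n : ℤ | (0 < s * n ∧ s * n ≤ N) ∧ ¬ ∃ k : ℕ, T^[k] n ∉ A ∧
        |((T^[k] n : ℤ) : ℝ)| < Z ∧ ∀ j < k, Z ≤ |((T^[j] n : ℤ) : ℝ)|}
      ⊆ (((Finset.Icc (1 : ℤ) N).filter (fun n => ¬ ∃ k : ℕ, (Tz (s * d))^[k] n ∉ F ∧
        (((Tz (s * d))^[k] n : ℤ) : ℝ) < Z ∧ ∀ j < k, Z ≤ (((Tz (s * d))^[j] n : ℤ) : ℝ)) : Finset ℤ) : Set ℤ) := by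
    rintro _ ⟨n, ⟨⟨hn1, hn2⟩, hn3⟩, rfl⟩
    simp only
    rw [mem_coe, mem_filter, Finset.mem_Icc]
    refine ⟨⟨by omega, hn2⟩, ?_⟩
    rintro ⟨k, g1, g2, g3⟩
    apply hn3
    have hval : ∀ j : ℕ, T^[j] n = s * (Tz (s * d))^[j] (s * n) := by
      intro j
      rw [← T_iterU hT hd s hs j (s * n), ← mul_assoc, hss, one_mul]
    have hvR : ∀ j : ℕ, |((T^[j] n : ℤ) : ℝ)| = |(((Tz (s * d))^[j] (s * n) : ℤ) : ℝ)| := by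
      intro j
      rw [hval j]
      push_cast
      rw [abs_mul, hsR, one_mul]
    have hpos : (0 : ℝ) < (((Tz (s * d))^[k] (s * n) : ℤ) : ℝ) := by
      rcases Nat.eq_zero_or_pos k with rfl | hk
      · rw [Function.iterate_zero, id]
        exact_mod_cast hn1
      · obtain ⟨k', rfl⟩ : ∃ k', k = k' + 1 := ⟨k - 1, by omega⟩
        rw [Function.iterate_succ_apply']
        have := half_step (Int.odd_iff.1 hsodd) hZd (g3 k' (by omega))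
        linarith
    refine ⟨k, ?_, by rw [hvR, abs_of_pos hpos]; exact g2, fun j hj => ?_⟩
    · intro hAm
      apply g1
      rw [hF, mem_image]
      refine ⟨T^[k] n, ?_, ?_⟩
      · rw [Set.Finite.mem_toFinset]
        refine ⟨hAm, ?_, by rw [hvR, abs_of_pos hpos]; exact g2⟩
        intro h0
        have h2 := hvR k
        rw [h0, abs_of_pos hpos] at h2
        rw [← h2] at hpos
        norm_num at hpos
      · rw [hval k, ← mul_assoc, hss, one_mul]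
    · rw [hvR]
      exact (g3 j hj).trans (le_abs_self _)
  have h2 := Set.ncard_le_ncard hsub (Finset.finite_toSet _)
  rw [Set.ncard_image_of_injective _ hinj, Set.ncard_coe_finset] at h2
  exact_mod_cast h2

/-- **the transfer principle for the `3x+d` maps** -/
theorem bothU {ε : ℝ} (hε : 0 < ε) :
    ∃ δ K : ℝ, 0 < δ ∧ 4 ≤ K ∧ ∀ d : ℤ, d % 2 = 1 → ¬ (3 : ℤ) ∣ d → ∀ T : ℤ → ℤ,
      (∀ x, T x = if x % 2 = 0 then x / 2 else (3 * x + d) / 2) → ∀ (Z : ℝ) (N : ℕ), K * |(d : ℝ)| ≤ Z →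
      Z ≤ N → ∀ A : Set ℤ,
      (Set.ncard {a : ℤ | a ∈ A ∧ a ≠ 0 ∧ |(a : ℝ)| < Z} : ℝ) ≤ δ * Z →
      (Set.ncard {n : ℤ | n ≠ 0 ∧ |n| ≤ N ∧ ¬ ∃ k : ℕ, T^[k] n ∉ A ∧
        |((T^[k] n : ℤ) : ℝ)| < Z ∧ ∀ j < k, Z ≤ |((T^[j] n : ℤ) : ℝ)|} : ℝ) ≤ ε * N := by
  obtain ⟨δ₁, K₁, hδ₁, hK₁, h1⟩ := signU (show 0 < ε / 2 by positivity) 1 (Or.inl rfl)
  obtain ⟨δ₂, K₂, hδ₂, hK₂, h2⟩ := signU (show 0 < ε / 2 by positivity) (-1) (Or.inr rfl)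
  refine ⟨min δ₁ δ₂, max K₁ K₂, lt_min hδ₁ hδ₂, hK₁.trans (le_max_left _ _), ?_⟩
  intro d hd hd3 T hT Z N hZ hZN A hA
  have hd0 : 0 ≤ |(d : ℝ)| := abs_nonneg _
  have hZa : K₁ * |(d : ℝ)| ≤ Z := (mul_le_mul_of_nonneg_right (le_max_left _ _) hd0).trans hZ
  have hZb : K₂ * |(d : ℝ)| ≤ Z := (mul_le_mul_of_nonneg_right (le_max_right _ _) hd0).trans hZ
  have hZ0 : 0 ≤ Z := by nlinarith
  have e1 := h1 d hd hd3 T hT Z N hZa hZN A (hA.trans (mul_le_mul_of_nonneg_right (min_le_left _ _) hZ0))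
  have e2 := h2 d hd hd3 T hT Z N hZb hZN A (hA.trans (mul_le_mul_of_nonneg_right (min_le_right _ _) hZ0))
  have hfin : ∀ s : ℤ, s = 1 ∨ s = -1 → {n : ℤ | (0 < s * n ∧ s * n ≤ N) ∧ ¬ ∃ k : ℕ, T^[k] n ∉ A ∧
        |((T^[k] n : ℤ) : ℝ)| < Z ∧ ∀ j < k, Z ≤ |((T^[j] n : ℤ) : ℝ)|}.Finite := by
    intro s hs
    apply (Set.finite_Icc (-(N : ℤ)) N).subset
    rintro n ⟨⟨g1, g2⟩, _⟩
    rw [Set.mem_Icc]
    rcases hs with rfl | rfl <;> omega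
  have hsub : {n : ℤ | n ≠ 0 ∧ |n| ≤ N ∧ ¬ ∃ k : ℕ, T^[k] n ∉ A ∧
        |((T^[k] n : ℤ) : ℝ)| < Z ∧ ∀ j < k, Z ≤ |((T^[j] n : ℤ) : ℝ)|}
      ⊆ {n : ℤ | (0 < 1 * n ∧ 1 * n ≤ N) ∧ ¬ ∃ k : ℕ, T^[k] n ∉ A ∧
        |((T^[k] n : ℤ) : ℝ)| < Z ∧ ∀ j < k, Z ≤ |((T^[j] n : ℤ) : ℝ)|}
        ∪ {n : ℤ | (0 < -1 * n ∧ -1 * n ≤ N) ∧ ¬ ∃ k : ℕ, T^[k] n ∉ A ∧
        |((T^[k] n : ℤ) : ℝ)| < Z ∧ ∀ j < k, Z ≤ |((T^[j] n : ℤ) : ℝ)|} := by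
    rintro n ⟨g1, g2, g3⟩
    rw [abs_le] at g2
    rcases lt_or_gt_of_ne g1 with h | h
    · exact Or.inr ⟨⟨by omega, by omega⟩, g3⟩
    · exact Or.inl ⟨⟨by omega, by omega⟩, g3⟩
  have h3 := (Set.ncard_le_ncard hsub ((hfin 1 (Or.inl rfl)).union (hfin (-1) (Or.inr rfl)))).trans
    (Set.ncard_union_le _ _)
  have h4 : (Set.ncard {n : ℤ | n ≠ 0 ∧ |n| ≤ N ∧ ¬ ∃ k : ℕ, T^[k] n ∉ A ∧
        |((T^[k] n : ℤ) : ℝ)| < Z ∧ ∀ j < k, Z ≤ |((T^[j] n : ℤ) : ℝ)|} : ℝ)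
      ≤ (Set.ncard {n : ℤ | (0 < 1 * n ∧ 1 * n ≤ N) ∧ ¬ ∃ k : ℕ, T^[k] n ∉ A ∧
        |((T^[k] n : ℤ) : ℝ)| < Z ∧ ∀ j < k, Z ≤ |((T^[j] n : ℤ) : ℝ)|} : ℝ)
      + (Set.ncard {n : ℤ | (0 < -1 * n ∧ -1 * n ≤ N) ∧ ¬ ∃ k : ℕ, T^[k] n ∉ A ∧
        |((T^[k] n : ℤ) : ℝ)| < Z ∧ ∀ j < k, Z ≤ |((T^[j] n : ℤ) : ℝ)|} : ℝ) := by exact_mod_cast h3
  linarith

end Pool.Agent.H998_TU
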